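import Pool.Agent.H5.DL.Core

/-!
# DELTA (MP_d362fb_lc): the concrete index orders
-/

set_option autoImplicit false

open Cardinal

namespace H5.DL

theorem bd_of_lt (c : Cardinal.{0}) (hc : c.IsRegular) (s : Set c.ord.ToType) (hs : #s < c) :
    ∃ b, ∀ x ∈ s, x ≤ b := by
  by_contra h
  push Not at h
  have h1 : IsCofinal s := fun a => by
    obtain ⟨x, hx, hax⟩ := h a
    exact ⟨x, hx, hax.le⟩
  have h2 : Order.cof c.ord.ToType ≤ #s := Order.cof_le h1
  rw [Ordinal.cof_toType, hc.cof_ord] at h2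
  exact absurd (lt_of_le_of_lt h2 hs) (lt_irrefl _)

abbrev W1 : Type := (Cardinal.aleph 1).ord.ToType
abbrev W2 : Type := (Cardinal.aleph 2).ord.ToType

theorem reg2 : (Cardinal.aleph 2).IsRegular := by
  have h := Cardinal.isRegular_aleph_add_one 1
  rwa [one_add_one_eq_two] at h

theorem countable_of_lt {α : Type} (s : Set α) (h : #s < Cardinal.aleph 1) : s.Countable := by
  rw [← Cardinal.succ_aleph0, Order.lt_succ_iff, Cardinal.mk_le_aleph0_iff] at h
  exact h

theorem lt_of_countable {α : Type} (s : Set α) (h : s.Countable) : #s < Cardinal.aleph 1 := by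
  rw [← Cardinal.succ_aleph0, Order.lt_succ_iff, Cardinal.mk_le_aleph0_iff]
  exact h

theorem aleph_one_lt_two : Cardinal.aleph.{0} 1 < Cardinal.aleph 2 := by
  rw [Cardinal.aleph_lt_aleph]; exact one_lt_two

theorem idx : Idx W1 W2 where
  wfK := wellFounded_lt
  wfL := wellFounded_lt
  noK := by
    have := Cardinal.noMaxOrder (Cardinal.isRegular_aleph_one.aleph0_le)
    exact fun a => exists_gt a
  noL := by
    have := Cardinal.noMaxOrder reg2.aleph0_le
    exact fun a => exists_gt a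
  ctK a := countable_of_lt _ (Cardinal.mk_Iio_toType_ord_lt a)
  bdK s hs := bd_of_lt _ Cardinal.isRegular_aleph_one s (lt_of_countable s hs)
  bdLc s hs := bd_of_lt _ reg2 s (lt_trans (lt_of_countable s hs) aleph_one_lt_two)
  bdKL f := by
    obtain ⟨b, hb⟩ := bd_of_lt _ reg2 (Set.range f) (by
      refine lt_of_le_of_lt Cardinal.mk_range_le ?_
      rw [Cardinal.mk_ord_toType]
      exact aleph_one_lt_two)
    exact ⟨b, fun x => hb _ ⟨x, rfl⟩⟩
  bdL a f := by
    obtain ⟨b, hb⟩ := bd_of_lt _ reg2 (f '' Set.Iio a) (by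
      refine lt_of_le_of_lt Cardinal.mk_image_le ?_
      exact Cardinal.mk_Iio_toType_ord_lt a)
    exact ⟨b, fun x hx => hb _ ⟨x, hx, rfl⟩⟩

theorem core_ex (d : Nd W1 W2 → W1 × W2) : Split d := by
  refine core idx ?_ ?_ d
  · rw [Ordinal.nonempty_toType_iff]
    intro h
    rw [Cardinal.ord_eq_zero] at h
    exact (Cardinal.aleph_pos 1).ne' h
  · rw [Ordinal.nonempty_toType_iff]
    intro h
    rw [Cardinal.ord_eq_zero] at h
    exact (Cardinal.aleph_pos 2).ne' h

end H5.DL
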