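import Pool.Agent.H5.DL.Nd

/-!
# DELTA (MP_d362fb_lc): the combinatorial core (A)
-/

set_option autoImplicit false

namespace H5.DL

variable {K L : Type} [LinearOrder K] [LinearOrder L]

theorem Nd.exists_len (hL : WellFounded ((· < ·) : L → L → Prop)) (t : Nd K L)
    (h : ∃ ν, t.f ν = none) : ∃ ν, t.Len ν := by
  refine ⟨hL.min {ν | t.f ν = none} h, hL.min_mem _ h, fun μ hμ h' => ?_⟩
  exact hL.not_lt_min _ h' hμ

theorem Nd.Len.unique {t : Nd K L} {ν μ : L} (h1 : t.Len ν) (h2 : t.Len μ) : ν = μ := by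
  rcases lt_trichotomy ν μ with h | h | h
  · exact (h2.2 ν h h1.1).elim
  · exact h
  · exact (h1.2 μ h h2.1).elim

theorem Nd.ne_none_of_le {s x : Nd K L} (h : s ≤ x) {ν : L} (hs : s.f ν ≠ none) :
    x.f ν = s.f ν := by
  cases h1 : s.f ν with
  | none => exact (hs h1).elim
  | some d => exact h ν d h1

theorem Nd.none_of_ge (t : Nd K L) {ν μ : L} (h : ν ≤ μ) (hν : t.f ν = none) : t.f μ = none := by
  by_contra h'
  exact t.dc ν μ h h' hν

theorem Nd.snoc_none (t : Nd K L) (ν : L) (hν : t.Len ν) (d : K × L) (hd : t.Bd d)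
    (hn : ∀ a : L, ∃ b, a < b) : ∃ μ, (t.snoc ν hν d hd).f μ = none := by
  obtain ⟨b, hb⟩ := hn ν
  refine ⟨b, ?_⟩
  rw [Nd.snoc_apply_ne _ _ _ _ _ (ne_of_gt hb)]
  exact t.none_of_ge hb.le hν.1

theorem Nd.sup_none (C : Set (Nd K L)) (hC : ∀ x ∈ C, ∀ y ∈ C, x ≤ y ∨ y ≤ x) (b : L)
    (h : ∀ x ∈ C, x.f b = none) : (Nd.sup C hC).f b = none := by
  cases h1 : (Nd.sup C hC).f b with
  | none => rfl
  | some d =>
    obtain ⟨x, hx, hxb⟩ := Nd.sup_some C hC b d h1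
    rw [h x hx] at hxb
    exact (Option.some_ne_none _ hxb.symm).elim

/-- transfinite construction of an increasing sequence of nodes -/
theorem chain_build {I : Type} [LinearOrder I] (wf : WellFounded ((· < ·) : I → I → Prop))
    (Q : Set (Nd K L)) (G : I → Nd K L → Prop)
    (step : ∀ i, ∀ t ∈ Q, ∃ t' ∈ Q, t ≤ t' ∧ G i t')
    (lim : ∀ (i : I) (f : I → Nd K L), (∀ j < i, f j ∈ Q) →
      (∀ j k, j ≤ k → k < i → f j ≤ f k) → ∃ t ∈ Q, ∀ j < i, f j ≤ t) :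
    ∃ f : I → Nd K L, (∀ i, f i ∈ Q) ∧ (∀ i j, i ≤ j → f i ≤ f j) ∧ ∀ i, G i (f i) := by
  classical
  let F : (i : I) → ((j : I) → j < i → Nd K L) → Nd K L := fun i g =>
    if h : ∃ t ∈ Q, (∀ j (hj : j < i), g j hj ≤ t) ∧ G i t then h.choose else Nd.nil
  let f : I → Nd K L := wf.fix F
  have hf : ∀ i, f i = F i fun j _ => f j := fun i => wf.fix_eq F i
  have key : ∀ i, f i ∈ Q ∧ (∀ j < i, f j ≤ f i) ∧ G i (f i) := by
    intro i
    induction i using wf.induction with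
    | _ i ih =>
      have hm : ∀ j k, j ≤ k → k < i → f j ≤ f k := by
        intro j k hjk hk
        rcases eq_or_lt_of_le hjk with h | h
        · rw [h]
        · exact (ih k hk).2.1 j h
      obtain ⟨t, ht, htj⟩ := lim i f (fun j hj => (ih j hj).1) hm
      obtain ⟨t', ht', htt', hG⟩ := step i t ht
      have h : ∃ t ∈ Q, (∀ j (_ : j < i), f j ≤ t) ∧ G i t :=
        ⟨t', ht', fun j hj => le_trans (htj j hj) htt', hG⟩
      have h2 : f i = h.choose := by rw [hf i]; exact dif_pos h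
      rw [h2]
      exact ⟨h.choose_spec.1, h.choose_spec.2.1, h.choose_spec.2.2⟩
  refine ⟨f, fun i => (key i).1, fun i j hij => ?_, fun i => (key i).2.2⟩
  rcases eq_or_lt_of_le hij with h | h
  · rw [h]
  · exact (key j).2.1 i h

theorem chain_of (I : Type) [LinearOrder I] (f : I → Nd K L) (hf : ∀ i j, i ≤ j → f i ≤ f j)
    (S : Set I) : ∀ x ∈ f '' S, ∀ y ∈ f '' S, x ≤ y ∨ y ≤ x := by
  rintro _ ⟨i, _, rfl⟩ _ ⟨j, _, rfl⟩
  rcases le_total i j with h | h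
  · exact Or.inl (hf i j h)
  · exact Or.inr (hf j i h)

/-- the first property of `t` and `a` -/
def One (d : Nd K L → K × L) (t : Nd K L) (a : K) : Prop :=
  ∀ g : K × L, ∃ ξ, t ≤ ξ ∧ ∃ ν e, t.Len ν ∧ ξ.f ν = some e ∧ g ≤ e ∧ (d ξ).1 ≤ a

/-- the second property of `t` and `a` -/
def Two (d : Nd K L → K × L) (t : Nd K L) (a : K) : Prop :=
  ∃ j : L, ∀ ι : L, ∃ η, t ≤ η ∧ ∃ ν e, t.Len ν ∧ η.f ν = some e ∧ a < e.1 ∧ ι ≤ e.2 ∧
    (d η).2 ≤ j

/-- the conclusion of the core -/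
def Split (d : Nd K L → K × L) : Prop := ∃ (ξ η : Nd K L) (ν : L) (e e' : K × L),
    (∀ μ < ν, ξ.f μ = η.f μ ∧ ξ.f μ ≠ none) ∧ ξ.f ν = some e ∧ η.f ν = some e' ∧ e ≠ e' ∧
      d η ≤ e ∧ d ξ ≤ e'

theorem split_of_both (h : Idx K L) (d : Nd K L → K × L) (t : Nd K L) (a : K)
    (h1 : One d t a) (h2 : Two d t a) : Split d := by
  obtain ⟨j, hj⟩ := h2
  choose ξ hξ ν e hν he hge hda using fun g : K => h1 (g, j)
  obtain ⟨i, hi⟩ := h.bdKL fun g => (d (ξ g)).2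
  obtain ⟨η, hη, ν', e', hν', he', ha, hi', hdη⟩ := hj i
  obtain ⟨b, hb⟩ := h.noK e'.1
  let g := max b (d η).1
  have hνν : ν g = ν' := (hν g).unique hν'
  refine ⟨ξ g, η, ν', e g, e', ?_, ?_, he', ?_, ?_, ?_⟩
  · intro μ hμ
    have h3 := hν'.2 μ hμ
    have h4 := Nd.ne_none_of_le (hξ g) h3
    have h5 := Nd.ne_none_of_le hη h3
    exact ⟨h4.trans h5.symm, by rw [h4]; exact h3⟩
  · rw [← hνν]; exact he g
  · intro h3
    have h4 : g ≤ (e g).1 := (hge g).1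
    rw [h3] at h4
    exact absurd (lt_of_lt_of_le hb (le_trans (le_max_left _ _) h4)) (lt_irrefl _)
  · exact ⟨le_trans (le_max_right _ _) (hge g).1, le_trans hdη (hge g).2⟩
  · exact ⟨(le_trans (hda g) ha.le), le_trans (hi g) hi'⟩

theorem bound_snd (h : Idx K L) (t : Nd K L) (ht : ∃ ν, t.f ν = none) :
    ∃ l, ∀ μ e, t.f μ = some e → e.2 ≤ l := by
  obtain ⟨ν, hν⟩ := ht
  obtain ⟨l, hl⟩ := h.bdL ν fun μ => match t.f μ with
    | some e => e.2
    | none => ν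
  refine ⟨l, fun μ e he => ?_⟩
  have hμ : μ < ν := by
    by_contra h'
    rw [t.none_of_ge (not_lt.mp h') hν] at he
    exact Option.some_ne_none _ he.symm
  have := hl μ hμ
  simp only [he] at this
  exact this

/-- the core: for every `d` there are two nodes `ξ`, `η` which split at `ν` with labels `e`, `e'`,
`d η ≤ e` and `d ξ ≤ e'` -/
theorem core (h : Idx K L) (hK0 : Nonempty K) (hL0 : Nonempty L) (d : Nd K L → K × L) :
    Split d := by
  by_cases hb : ∃ t a, One d t a ∧ Two d t a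
  · obtain ⟨t, a, h1, h2⟩ := hb
    exact split_of_both h d t a h1 h2
  exfalso
  have hb' : ∀ t a, One d t a → ¬ Two d t a := fun t a h1 h2 => hb ⟨t, a, h1, h2⟩
  -- claim A
  have hA : ∃ t1 b1, ((∃ ν, t1.f ν = none) ∧ ∃ b, t1.Bd b) ∧ ∀ t', ((∃ ν, t'.f ν = none) ∧
      ∃ b, t'.Bd b) → t1 ≤ t' → One d t' b1 := by
    by_contra hA
    push Not at hA
    have main := chain_build h.wfK {t : Nd K L | (∃ ν, t.f ν = none) ∧ ∃ b, t.Bd b}
      (fun μ t => ∀ ξ, t ≤ ξ → μ < (d ξ).1) ?_ ?_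
    · obtain ⟨f, hQ, hm, hG⟩ := main
      let ξ := Nd.sup (f '' Set.univ) (chain_of K f hm Set.univ)
      exact lt_irrefl _ (hG (d ξ).1 ξ (Nd.le_sup _ _ _ ⟨_, trivial, rfl⟩))
    · intro i t ht
      obtain ⟨t2, ht2, hle, h1⟩ := hA t i ht
      unfold One at h1
      push Not at h1
      obtain ⟨g, hg⟩ := h1
      obtain ⟨ν, hν⟩ := t2.exists_len h.wfL ht2.1
      obtain ⟨b, hb⟩ := ht2.2
      have hbd : t2.Bd (g ⊔ b) := fun ν e he => le_trans (hb ν e he) le_sup_right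
      refine ⟨t2.snoc ν hν (g ⊔ b) hbd, ⟨t2.snoc_none ν hν _ hbd h.noL, ⟨g ⊔ b, ?_⟩⟩,
        le_trans hle (t2.le_snoc ν hν _ hbd), fun ξ hξ => ?_⟩
      · intro μ e he
        by_cases hμ : μ = ν
        · rw [hμ, Nd.snoc_apply] at he
          rw [← Option.some_injective _ he]
        · rw [Nd.snoc_apply_ne _ _ _ _ _ hμ] at he
          exact hbd μ e he
      · exact hg ξ (le_trans (t2.le_snoc ν hν _ hbd) hξ) ν (g ⊔ b) hν
          (hξ ν _ (t2.snoc_apply ν hν _ hbd)) le_sup_left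
    · intro i f hQ hm
      have hch : ∀ x ∈ f '' Set.Iio i, ∀ y ∈ f '' Set.Iio i, x ≤ y ∨ y ≤ x := by
        rintro _ ⟨j, hj, rfl⟩ _ ⟨k, hk, rfl⟩
        rcases le_total j k with h | h
        · exact Or.inl (hm j k h hk)
        · exact Or.inr (hm k j h hj)
      have hn : ∃ b, ∀ j, j < i → (f j).f b = none := by
        obtain ⟨l0⟩ := hL0
        have : ∀ j, ∃ ν, j < i → (f j).f ν = none := by
          intro j
          by_cases hj : j < i
          · obtain ⟨ν, hν⟩ := (hQ j hj).1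
            exact ⟨ν, fun _ => hν⟩
          · exact ⟨l0, fun h => (hj h).elim⟩
        choose ν hν using this
        obtain ⟨b, hb⟩ := h.bdKL ν
        exact ⟨b, fun j hj => (f j).none_of_ge (hb j) (hν j hj)⟩
      obtain ⟨b, hb⟩ := hn
      have hsn : ∃ ν, (Nd.sup (f '' Set.Iio i) hch).f ν = none :=
        ⟨b, Nd.sup_none _ _ b (by rintro _ ⟨j, hj, rfl⟩; exact hb j hj)⟩
      refine ⟨Nd.sup (f '' Set.Iio i) hch, ⟨hsn, ?_⟩, fun j hj => Nd.le_sup _ _ _ ⟨j, hj, rfl⟩⟩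
      obtain ⟨l, hl⟩ := bound_snd h _ hsn
      have hk : ∃ k : K, ∀ j, j < i → ∀ μ e, (f j).f μ = some e → e.1 ≤ k := by
        obtain ⟨k0⟩ := hK0
        have : ∀ j, ∃ k : K, j < i → ∀ μ e, (f j).f μ = some e → e.1 ≤ k := by
          intro j
          by_cases hj : j < i
          · obtain ⟨b, hb⟩ := (hQ j hj).2
            exact ⟨b.1, fun _ μ e he => (hb μ e he).1⟩
          · exact ⟨k0, fun h => (hj h).elim⟩
        choose k hk using this
        obtain ⟨b, hb⟩ := h.bdK (k '' Set.Iio i) ((h.ctK i).image k)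
        exact ⟨b, fun j hj μ e he => le_trans (hk j hj μ e he) (hb _ ⟨j, hj, rfl⟩)⟩
      obtain ⟨k, hk⟩ := hk
      refine ⟨(k, l), fun μ e he => ⟨?_, hl μ e he⟩⟩
      obtain ⟨_, ⟨j, hj, rfl⟩, he'⟩ := Nd.sup_some _ _ _ _ he
      exact hk j hj μ e he'
  -- claim B
  obtain ⟨t1, b1, ht1, hOne⟩ := hA
  obtain ⟨⟨k1, l1⟩, hk1⟩ := ht1.2
  obtain ⟨b2, hb2⟩ := h.noK b1
  let c := max k1 b2
  have hc1 : b1 < c := lt_of_lt_of_le hb2 (le_max_right _ _)
  have main := chain_build h.wfL {t : Nd K L | t1 ≤ t ∧ (∃ ν, t.f ν = none) ∧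
      ∀ μ e, t.f μ = some e → e.1 ≤ c} (fun μ t => ∀ ξ, t ≤ ξ → μ < (d ξ).2) ?_ ?_
  · obtain ⟨f, hQ, hm, hG⟩ := main
    let ξ := Nd.sup (f '' Set.univ) (chain_of L f hm Set.univ)
    exact lt_irrefl _ (hG (d ξ).2 ξ (Nd.le_sup _ _ _ ⟨_, trivial, rfl⟩))
  · rintro i t ⟨ht1t, htn, htc⟩
    obtain ⟨l, hl⟩ := bound_snd h t htn
    have h1 := hb' t b1 (hOne t ⟨htn, ⟨(c, l), fun μ e he => ⟨htc μ e he, hl μ e he⟩⟩⟩ ht1t)
    unfold Two at h1
    push Not at h1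
    obtain ⟨ι, hι⟩ := h1 i
    obtain ⟨ν, hν⟩ := t.exists_len h.wfL htn
    have hbd : t.Bd (c, max ι l) := fun μ e he =>
      ⟨htc μ e he, le_trans (hl μ e he) (le_max_right _ _)⟩
    refine ⟨t.snoc ν hν _ hbd, ⟨le_trans ht1t (t.le_snoc ν hν _ hbd),
      t.snoc_none ν hν _ hbd h.noL, ?_⟩, t.le_snoc ν hν _ hbd, fun ξ hξ => ?_⟩
    · intro μ e he
      by_cases hμ : μ = ν
      · rw [hμ, Nd.snoc_apply] at he
        rw [← Option.some_injective _ he]
      · rw [Nd.snoc_apply_ne _ _ _ _ _ hμ] at he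
        exact htc μ e he
    · exact hι ξ (le_trans (t.le_snoc ν hν _ hbd) hξ) ν (c, max ι l) hν
        (hξ ν _ (t.snoc_apply ν hν _ hbd)) hc1 (le_max_left _ _)
  · intro i f hQ hm
    have hch : ∀ x ∈ insert t1 (f '' Set.Iio i), ∀ y ∈ insert t1 (f '' Set.Iio i),
        x ≤ y ∨ y ≤ x := by
      rintro x (rfl | ⟨j, hj, rfl⟩) y (rfl | ⟨k, hk, rfl⟩)
      · exact Or.inl le_rfl
      · exact Or.inl (hQ k hk).1
      · exact Or.inr (hQ j hj).1
      · rcases le_total j k with h | h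
        · exact Or.inl (hm j k h hk)
        · exact Or.inr (hm k j h hj)
    have hn : ∃ b, ∀ x ∈ insert t1 (f '' Set.Iio i), x.f b = none := by
      obtain ⟨l0⟩ := hL0
      have : ∀ j, ∃ ν, j < i → (f j).f ν = none := by
        intro j
        by_cases hj : j < i
        · obtain ⟨ν, hν⟩ := (hQ j hj).2.1
          exact ⟨ν, fun _ => hν⟩
        · exact ⟨l0, fun h => (hj h).elim⟩
      choose ν hν using this
      obtain ⟨b, hb⟩ := h.bdL i ν
      obtain ⟨ν1, hν1⟩ := ht1.1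
      refine ⟨max b ν1, ?_⟩
      rintro x (rfl | ⟨j, hj, rfl⟩)
      · exact x.none_of_ge (le_max_right _ _) hν1
      · exact (f j).none_of_ge (le_trans (hb j hj) (le_max_left _ _)) (hν j hj)
    obtain ⟨b, hb⟩ := hn
    refine ⟨Nd.sup _ hch, ⟨Nd.le_sup _ _ _ (Set.mem_insert _ _), ⟨b, Nd.sup_none _ _ b hb⟩, ?_⟩,
      fun j hj => Nd.le_sup _ _ _ (Set.mem_insert_of_mem _ ⟨j, hj, rfl⟩)⟩
    intro μ e he
    obtain ⟨x, hx, he'⟩ := Nd.sup_some _ _ _ _ he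
    rcases hx with rfl | ⟨j, hj, rfl⟩
    · exact le_trans (hk1 μ e he').1 (le_max_left _ _)
    · exact (hQ j hj).2.2 μ e he'

end H5.DL
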