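import Pool.Agent.H5.DL.Core

/-!
# DELTA (MP_d362fb_lc): large labels
-/

set_option autoImplicit false

namespace H5.DL

variable {K L : Type} [LinearOrder K] [LinearOrder L]

/-- strictly below in both coordinates -/
def Ll (d e : K × L) : Prop := d.1 < e.1 ∧ d.2 < e.2

theorem Ll.le {d e : K × L} (h : Ll d e) : d ≤ e := ⟨h.1.le, h.2.le⟩

theorem Ll.trans {d e g : K × L} (h1 : Ll d e) (h2 : Ll e g) : Ll d g :=
  ⟨h1.1.trans h2.1, h1.2.trans h2.2⟩

theorem Ll.trans_le {d e g : K × L} (h1 : Ll d e) (h2 : e ≤ g) : Ll d g :=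
  ⟨h1.1.trans_le h2.1, h1.2.trans_le h2.2⟩

theorem Ll.of_le {d e g : K × L} (h1 : d ≤ e) (h2 : Ll e g) : Ll d g :=
  ⟨h1.1.trans_lt h2.1, h1.2.trans_lt h2.2⟩

theorem Ll.irrefl (d : K × L) : ¬ Ll d d := fun h => lt_irrefl _ h.1

theorem Ll.wf (h : Idx K L) : WellFounded (Ll : K × L → K × L → Prop) :=
  Subrelation.wf (r := InvImage (· < ·) Prod.fst) (fun h => h.1) (InvImage.wf _ h.wfK)

/-- no label of `x` is `≥ k` -/
def Nd.Free (x : Nd K L) (k : K × L) : Prop := ∀ ν d, x.f ν = some d → ¬ k ≤ d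

theorem Nd.Free.mono {x : Nd K L} {k k' : K × L} (h : x.Free k) (hk : k ≤ k') : x.Free k' :=
  fun ν d hd h' => h ν d hd (le_trans hk h')

theorem Nd.exists_free (h : Idx K L) (hK0 : Nonempty K) (hL0 : Nonempty L) (x : Nd K L) :
    ∃ k, x.Free k := by
  by_cases hx : ∃ ν, x.f ν = none
  · obtain ⟨l, hl⟩ := bound_snd h x hx
    obtain ⟨l', hl'⟩ := h.noL l
    obtain ⟨k0⟩ := hK0
    refine ⟨(k0, l'), fun ν d hd hk => ?_⟩
    exact absurd (lt_of_lt_of_le hl' (le_trans hk.2 (hl ν d hd))) (lt_irrefl _)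
  · push Not at hx
    have hb : ∃ k : K, ∀ ν d, x.f ν = some d → d.1 ≤ k := by
      by_contra hb
      push Not at hb
      choose ν d hd hk using hb
      obtain ⟨b, hb⟩ := h.bdKL ν
      cases hf : x.f b with
      | none => exact hx b hf
      | some e =>
        have := x.mo _ _ _ _ (hb e.1) (hd e.1) hf
        exact absurd (lt_of_lt_of_le (hk e.1) this.1) (lt_irrefl _)
    obtain ⟨k, hk⟩ := hb
    obtain ⟨k', hk'⟩ := h.noK k
    obtain ⟨l0⟩ := hL0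
    refine ⟨(k', l0), fun ν d hd h' => ?_⟩
    exact absurd (lt_of_lt_of_le hk' (le_trans h'.1 (hk ν d hd))) (lt_irrefl _)

theorem exists_ll (h : Idx K L) (S : Set (K × L)) (hS : S.Countable) : ∃ k, ∀ d ∈ S, Ll d k := by
  obtain ⟨a, ha⟩ := h.bdK (Prod.fst '' S) (hS.image _)
  obtain ⟨b, hb⟩ := h.bdLc (Prod.snd '' S) (hS.image _)
  obtain ⟨a', ha'⟩ := h.noK a
  obtain ⟨b', hb'⟩ := h.noL b
  exact ⟨(a', b'), fun d hd => ⟨lt_of_le_of_lt (ha _ ⟨d, hd, rfl⟩) ha',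
    lt_of_le_of_lt (hb _ ⟨d, hd, rfl⟩) hb'⟩⟩

/-- the choice of the label of a promise -/
theorem exists_label (h : Idx K L) (hK0 : Nonempty K) (hL0 : Nonempty L) (S : Set (K × L))
    (hS : S.Countable) (N : Set (Nd K L)) (hN : N.Countable) :
    ∃ k, (∀ d ∈ S, Ll d k) ∧ ∀ x ∈ N, x.Free k := by
  choose g hg using fun x : Nd K L => x.exists_free h hK0 hL0
  obtain ⟨k, hk⟩ := exists_ll h (S ∪ g '' N) (hS.union (hN.image g))
  exact ⟨k, fun d hd => hk d (Or.inl hd),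
    fun x hx => (hg x).mono (hk _ (Or.inr ⟨x, hx, rfl⟩)).le⟩

end H5.DL
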