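import Mathlib

/-!
# DELTA (MP_d362fb_lc): nodes

`K` plays the role of the first uncountable ordinal, `L` of the second one.  A node is a
nondecreasing sequence of labels in `K × L` whose length is at most the length of `L`, written
as a partial function defined on an initial segment of `L`.
-/

set_option autoImplicit false

namespace H5.DL

/-- the properties of the two index orders which are used -/
structure Idx (K L : Type) [LinearOrder K] [LinearOrder L] : Prop where
  wfK : WellFounded ((· < ·) : K → K → Prop)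
  wfL : WellFounded ((· < ·) : L → L → Prop)
  noK : ∀ a : K, ∃ b, a < b
  noL : ∀ a : L, ∃ b, a < b
  /-- initial segments of `K` are countable -/
  ctK : ∀ a : K, (Set.Iio a).Countable
  /-- countable subsets of `K` are bounded -/
  bdK : ∀ s : Set K, s.Countable → ∃ b, ∀ x ∈ s, x ≤ b
  /-- countable subsets of `L` are bounded -/
  bdLc : ∀ s : Set L, s.Countable → ∃ b, ∀ x ∈ s, x ≤ b
  /-- `K` many elements of `L` are bounded -/
  bdKL : ∀ f : K → L, ∃ b, ∀ x, f x ≤ b
  /-- fewer than `L` many elements of `L` are bounded -/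
  bdL : ∀ (a : L) (f : L → L), ∃ b, ∀ x < a, f x ≤ b

variable (K L : Type) [LinearOrder K] [LinearOrder L]

/-- nodes -/
@[ext]
structure Nd where
  f : L → Option (K × L)
  dc : ∀ ν μ, ν ≤ μ → f μ ≠ none → f ν ≠ none
  mo : ∀ ν μ d e, ν ≤ μ → f ν = some d → f μ = some e → d ≤ e

variable {K L}

/-- initial segment -/
instance : LE (Nd K L) := ⟨fun s x => ∀ ν d, s.f ν = some d → x.f ν = some d⟩

theorem Nd.le_def {s x : Nd K L} : s ≤ x ↔ ∀ ν d, s.f ν = some d → x.f ν = some d := Iff.rfl

instance : PartialOrder (Nd K L) where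
  le_refl _ _ _ h := h
  le_trans _ _ _ h1 h2 ν d h := h2 ν d (h1 ν d h)
  le_antisymm x y h1 h2 := by
    ext ν : 2
    cases hx : x.f ν with
    | none =>
      cases hy : y.f ν with
      | none => rfl
      | some d => rw [h2 ν d hy] at hx; exact (Option.some_ne_none _ hx).elim
    | some d => exact (h1 ν d hx).symm

/-- the label `d` is at least all labels of `t` -/
def Nd.Bd (t : Nd K L) (d : K × L) : Prop := ∀ ν e, t.f ν = some e → e ≤ d

/-- `ν` is the length of `t` -/
def Nd.Len (t : Nd K L) (ν : L) : Prop := t.f ν = none ∧ ∀ μ < ν, t.f μ ≠ none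

/-- the empty node -/
def Nd.nil : Nd K L where
  f _ := none
  dc _ _ _ h := h
  mo _ _ _ _ _ h := (Option.some_ne_none _ h.symm).elim

/-- one more label -/
def Nd.snoc (t : Nd K L) (ν : L) (hν : t.Len ν) (d : K × L) (hd : t.Bd d) : Nd K L where
  f μ := if μ = ν then some d else t.f μ
  dc μ ρ h1 h2 := by
    by_cases hμ : μ = ν
    · simp [hμ]
    · rw [if_neg hμ]
      by_cases hρ : ρ = ν
      · exact hν.2 μ (lt_of_le_of_ne (hρ ▸ h1) hμ)
      · rw [if_neg hρ] at h2
        exact t.dc μ ρ h1 h2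
  mo μ ρ e e' h1 h2 h3 := by
    by_cases hμ : μ = ν
    · rw [if_pos hμ] at h2
      by_cases hρ : ρ = ν
      · rw [if_pos hρ] at h3
        rw [← Option.some_injective _ h2, ← Option.some_injective _ h3]
      · rw [if_neg hρ] at h3
        exfalso
        have := t.dc ν ρ (hμ ▸ h1) (by rw [h3]; exact Option.some_ne_none _)
        exact this hν.1
    · rw [if_neg hμ] at h2
      by_cases hρ : ρ = ν
      · rw [if_pos hρ] at h3
        rw [← Option.some_injective _ h3]
        exact hd μ e h2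
      · rw [if_neg hρ] at h3
        exact t.mo μ ρ e e' h1 h2 h3

theorem Nd.le_snoc (t : Nd K L) (ν : L) (hν : t.Len ν) (d : K × L) (hd : t.Bd d) :
    t ≤ t.snoc ν hν d hd := by
  intro μ e h
  have : μ ≠ ν := by
    intro h'; rw [h', hν.1] at h; exact Option.some_ne_none _ h.symm
  show (if μ = ν then some d else t.f μ) = some e
  rw [if_neg this]; exact h

theorem Nd.snoc_apply (t : Nd K L) (ν : L) (hν : t.Len ν) (d : K × L) (hd : t.Bd d) :
    (t.snoc ν hν d hd).f ν = some d := if_pos rfl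

theorem Nd.snoc_apply_ne (t : Nd K L) (ν : L) (hν : t.Len ν) (d : K × L) (hd : t.Bd d) {μ : L}
    (h : μ ≠ ν) : (t.snoc ν hν d hd).f μ = t.f μ := if_neg h

open Classical in
/-- the union of a chain of nodes -/
noncomputable def Nd.sup (C : Set (Nd K L)) (hC : ∀ x ∈ C, ∀ y ∈ C, x ≤ y ∨ y ≤ x) : Nd K L where
  f ν := if h : ∃ x ∈ C, x.f ν ≠ none then h.choose.f ν else none
  dc ν μ h1 h2 := by
    by_cases h : ∃ x ∈ C, x.f μ ≠ none
    · obtain ⟨x, hx, hxμ⟩ := h
      have h' : ∃ x ∈ C, x.f ν ≠ none := ⟨x, hx, x.dc ν μ h1 hxμ⟩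
      rw [dif_pos h']
      exact h'.choose_spec.2
    · rw [dif_neg h] at h2; exact (h2 rfl).elim
  mo ν μ d e h1 h2 h3 := by
    by_cases h : ∃ x ∈ C, x.f ν ≠ none
    · by_cases h' : ∃ x ∈ C, x.f μ ≠ none
      · rw [dif_pos h] at h2
        rw [dif_pos h'] at h3
        rcases hC _ h.choose_spec.1 _ h'.choose_spec.1 with hh | hh
        · exact h'.choose.mo ν μ d e h1 (hh ν d h2) h3
        · exact h.choose.mo ν μ d e h1 h2 (hh μ e h3)
      · rw [dif_neg h'] at h3; exact (Option.some_ne_none _ h3.symm).elim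
    · rw [dif_neg h] at h2; exact (Option.some_ne_none _ h2.symm).elim

theorem Nd.le_sup (C : Set (Nd K L)) (hC : ∀ x ∈ C, ∀ y ∈ C, x ≤ y ∨ y ≤ x) (x : Nd K L)
    (hx : x ∈ C) : x ≤ Nd.sup C hC := by
  classical
  intro ν d h
  have h' : ∃ x ∈ C, x.f ν ≠ none := ⟨x, hx, by rw [h]; exact Option.some_ne_none _⟩
  show (if h : ∃ x ∈ C, x.f ν ≠ none then h.choose.f ν else none) = some d
  rw [dif_pos h']
  rcases hC _ h'.choose_spec.1 _ hx with hh | hh
  · have h2 := h'.choose_spec.2
    cases h3 : h'.choose.f ν with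
    | none => exact (h2 h3).elim
    | some e =>
      have := hh ν e h3
      rw [h] at this
      exact this.symm
  · exact hh ν d h

theorem Nd.sup_some (C : Set (Nd K L)) (hC : ∀ x ∈ C, ∀ y ∈ C, x ≤ y ∨ y ≤ x) (ν : L)
    (d : K × L) (h : (Nd.sup C hC).f ν = some d) : ∃ x ∈ C, x.f ν = some d := by
  classical
  have h1 : (if h : ∃ x ∈ C, x.f ν ≠ none then h.choose.f ν else none) = some d := h
  by_cases h' : ∃ x ∈ C, x.f ν ≠ none
  · rw [dif_pos h'] at h1
    exact ⟨_, h'.choose_spec.1, h1⟩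
  · rw [dif_neg h'] at h1; exact (Option.some_ne_none _ h1.symm).elim

end H5.DL
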