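import Mathlib

/-!
# DELTA (MP_d362fb_lc): finite trees of components
-/

set_option autoImplicit false

namespace H5.DL

/-- `J` with the symmetric edge set `E` is a tree, built from the root `i` by adding leaves -/
inductive TreeFrom (i : ℕ) : Finset ℕ → Finset (ℕ × ℕ) → Prop
  | single : TreeFrom i {i} ∅
  | leaf {J : Finset ℕ} {E : Finset (ℕ × ℕ)} (p q : ℕ) : TreeFrom i J E → p ∈ J → q ∉ J →
      TreeFrom i (insert q J) (insert (p, q) (insert (q, p) E))

theorem TreeFrom.root_mem {i : ℕ} {J : Finset ℕ} {E : Finset (ℕ × ℕ)} (h : TreeFrom i J E) :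
    i ∈ J := by
  induction h with
  | single => exact Finset.mem_singleton_self i
  | leaf p q _ _ _ ih => exact Finset.mem_insert_of_mem ih

theorem TreeFrom.symm {i : ℕ} {J : Finset ℕ} {E : Finset (ℕ × ℕ)} (h : TreeFrom i J E) :
    ∀ p q, (p, q) ∈ E → (q, p) ∈ E := by
  induction h with
  | single => intro p q h; exact absurd h (Finset.notMem_empty _)
  | leaf p q _ _ _ ih =>
    intro a b h
    simp only [Finset.mem_insert, Prod.mk.injEq] at h ⊢
    rcases h with ⟨rfl, rfl⟩ | ⟨rfl, rfl⟩ | h
    · exact Or.inr (Or.inl ⟨rfl, rfl⟩)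
    · exact Or.inl ⟨rfl, rfl⟩
    · exact Or.inr (Or.inr (ih a b h))

theorem TreeFrom.mem {i : ℕ} {J : Finset ℕ} {E : Finset (ℕ × ℕ)} (h : TreeFrom i J E) :
    ∀ p q, (p, q) ∈ E → p ∈ J ∧ q ∈ J ∧ p ≠ q := by
  induction h with
  | single => intro p q h; exact absurd h (Finset.notMem_empty _)
  | leaf p q _ hp hq ih =>
    intro a b h
    simp only [Finset.mem_insert, Prod.mk.injEq] at h
    have hpq : p ≠ q := fun h' => hq (h' ▸ hp)
    rcases h with ⟨rfl, rfl⟩ | ⟨rfl, rfl⟩ | h
    · exact ⟨Finset.mem_insert_of_mem hp, Finset.mem_insert_self _ _, hpq⟩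
    · exact ⟨Finset.mem_insert_self _ _, Finset.mem_insert_of_mem hp, hpq.symm⟩
    · obtain ⟨h1, h2, h3⟩ := ih a b h
      exact ⟨Finset.mem_insert_of_mem h1, Finset.mem_insert_of_mem h2, h3⟩

theorem TreeFrom.shift {p : ℕ} {J : Finset ℕ} {E : Finset (ℕ × ℕ)} (h : TreeFrom p J E) (q : ℕ)
    (hq : q ∉ J) : TreeFrom q (insert q J) (insert (p, q) (insert (q, p) E)) := by
  induction h with
  | single =>
    have h0 : TreeFrom q {q} ∅ := TreeFrom.single
    have hpq : p ≠ q := fun h => hq (h ▸ Finset.mem_singleton_self p)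
    have h1 := TreeFrom.leaf q p h0 (Finset.mem_singleton_self q)
      (fun h => hpq (Finset.mem_singleton.mp h))
    have e1 : insert q ({p} : Finset ℕ) = insert p {q} := Finset.pair_comm q p
    have e2 : insert (p, q) (insert (q, p) (∅ : Finset (ℕ × ℕ))) =
        insert (q, p) (insert (p, q) ∅) := Finset.insert_comm _ _ _
    rw [e1, e2]
    exact h1
  | leaf a b _ ha hb ih =>
    rename_i J E _
    have hqJ : q ∉ J := fun h => hq (Finset.mem_insert_of_mem h)
    have hqb : q ≠ b := fun h => hq (h ▸ Finset.mem_insert_self _ _)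
    have h1 := TreeFrom.leaf a b (ih hqJ) (Finset.mem_insert_of_mem ha) (fun h => by
      rcases Finset.mem_insert.mp h with h | h
      · exact hqb h.symm
      · exact hb h)
    have e1 : insert q (insert b J) = insert b (insert q J) := Finset.insert_comm _ _ _
    have e2 : insert (p, q) (insert (q, p) (insert (a, b) (insert (b, a) E))) =
        insert (a, b) (insert (b, a) (insert (p, q) (insert (q, p) E))) := by
      ext x
      simp only [Finset.mem_insert]
      tauto
    rw [e1, e2]
    exact h1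

/-- the root may be changed -/
theorem TreeFrom.reroot {i : ℕ} {J : Finset ℕ} {E : Finset (ℕ × ℕ)} (h : TreeFrom i J E) :
    ∀ j ∈ J, TreeFrom j J E := by
  induction h with
  | single =>
    intro j hj
    rw [Finset.mem_singleton.mp hj]
    exact TreeFrom.single
  | leaf p q _ hp hq ih =>
    intro j hj
    rcases Finset.mem_insert.mp hj with rfl | hj
    · exact (ih p hp).shift j hq
    · exact TreeFrom.leaf p q (ih j hj) hp hq

end H5.DL
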